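import Pool.Agent.R592.Slalom

/-!
# The uniformity of the meagre ideal is a lower bound for the vector space mad number

For every field `F` and every vector space `E` over `F` of countably infinite dimension, each
infinite mad family of infinite-dimensional subspaces of `E` has at least `nonM` members, where
`nonM` is the least cardinality of a nonmeagre set of reals.

Idea of the proof. Fix a member `A₀` of the family, linearly independent vectors `u k` of `A₀`
and vectors `v n` which are linearly independent modulo `A₀`. For a function `g` put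
`x n = u (g n) + v n` and let `X` be the span of the `x n`. Then `X ∩ A₀ = 0`. For any other
member `A` and given `g 0, …, g (n - 1)` there are at most `dim (A ∩ A₀) + n + 1` values `k` for
which `u k + v n` lies in the sum of `A` and the span of the earlier `x i`. If the family has
fewer than `nonM` members then a theorem on slaloms gives `g` which avoids these values for every
`A` from some `n` on, and `X` is almost disjoint from all members.
-/

open Set Filter Topology

namespace Pool.Agent.Results.MP_43e680_lc.NonMLeAVec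

variable {F E : Type} [Field F] [AddCommGroup E] [Module F E]

/-- A family of infinite-dimensional subspaces is almost disjoint if any two different members
have a finite-dimensional intersection. -/
def IsADFamily (𝒜 : Set (Submodule F E)) : Prop :=
  (∀ X ∈ 𝒜, ¬ FiniteDimensional F X) ∧
    ∀ X ∈ 𝒜, ∀ Y ∈ 𝒜, X ≠ Y → FiniteDimensional F (X ⊓ Y : Submodule F E)

/-- A mad family of subspaces: an almost disjoint family of infinite-dimensional subspaces which
is not properly contained in another one. -/
def IsMadFamily (𝒜 : Set (Submodule F E)) : Prop :=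
  IsADFamily 𝒜 ∧ ∀ ℬ : Set (Submodule F E), IsADFamily ℬ → 𝒜 ⊆ ℬ → 𝒜 = ℬ

variable (F E) in
/-- The least cardinality of an infinite mad family of subspaces of `E`. -/
noncomputable def aVec : Cardinal.{0} :=
  sInf {c | ∃ 𝒜 : Set (Submodule F E), 𝒜.Infinite ∧ IsMadFamily 𝒜 ∧ Cardinal.mk 𝒜 = c}

/-- The least cardinality of a nonmeagre set of reals. -/
noncomputable def nonM : Cardinal.{0} :=
  sInf {c | ∃ X : Set ℝ, Cardinal.mk X = c ∧ ¬ IsMeagre X}

/-- an infinite-dimensional space has an infinite linearly independent sequence -/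
lemma exists_seq {M : Type} [AddCommGroup M] [Module F M] (h : ¬ FiniteDimensional F M) :
    ∃ u : ℕ → M, LinearIndependent F u := by
  let b := Module.Free.chooseBasis F M
  have : Infinite (Module.Free.ChooseBasisIndex F M) := by
    by_contra hfin
    rw [not_infinite_iff_finite] at hfin
    exact h (Module.Finite.of_basis b)
  exact ⟨b ∘ Infinite.natEmbedding _, b.linearIndependent.comp _ (Infinite.natEmbedding _).injective⟩

lemma not_finite_of_seq {X : Submodule F E} {u : ℕ → E} (hu : LinearIndependent F u)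
    (h : ∀ n, u n ∈ X) : ¬ FiniteDimensional F X := by
  intro hX
  have h1 : LinearIndependent F (fun n => (⟨u n, h n⟩ : X)) := by
    apply LinearIndependent.of_comp X.subtype
    exact hu
  have := h1.finite
  exact not_finite ℕ

/-- an infinite almost disjoint family -/
lemma exists_infinite_ad (hE : Module.rank F E = Cardinal.aleph0) :
    ∃ 𝒜 : Set (Submodule F E), 𝒜.Infinite ∧ IsADFamily 𝒜 := by
  have hE' : ¬ FiniteDimensional F E := by
    intro h
    have := Module.rank_lt_aleph0 F E
    rw [hE] at this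
    exact lt_irrefl _ this
  obtain ⟨b, hb⟩ := exists_seq hE'
  let X : ℕ → Submodule F E := fun n => Submodule.span F (b '' (range fun m => Nat.pair n m))
  have hX : ∀ n, ¬ FiniteDimensional F (X n) := by
    intro n
    refine not_finite_of_seq (u := fun m => b (Nat.pair n m)) ?_ (fun m => ?_)
    · refine hb.comp (fun m => Nat.pair n m) (fun m m' h => ?_)
      exact (Nat.pair_eq_pair.1 h).2
    · exact Submodule.subset_span ⟨_, ⟨m, rfl⟩, rfl⟩
  have hd : ∀ n n', n ≠ n' → Disjoint (X n) (X n') := by
    intro n n' hne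
    apply hb.disjoint_span_image
    rw [Set.disjoint_left]
    rintro _ ⟨m, rfl⟩ ⟨m', hm'⟩
    exact hne (Nat.pair_eq_pair.1 hm').1.symm
  have hinj : Function.Injective X := by
    intro n n' h
    by_contra hne
    have h1 := hd n n' hne
    rw [← h, disjoint_self] at h1
    apply hX n
    rw [h1]
    infer_instance
  refine ⟨range X, infinite_range_of_injective hinj, ?_, ?_⟩
  · rintro _ ⟨n, rfl⟩
    exact hX n
  · rintro _ ⟨n, rfl⟩ _ ⟨n', rfl⟩ hne
    have h1 : n ≠ n' := fun h => hne (by rw [h])
    rw [(hd n n' h1).eq_bot]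
    infer_instance

lemma exists_mad (hE : Module.rank F E = Cardinal.aleph0) :
    ∃ 𝒜 : Set (Submodule F E), 𝒜.Infinite ∧ IsMadFamily 𝒜 := by
  obtain ⟨𝒜₀, h1, h2⟩ := exists_infinite_ad hE
  obtain ⟨𝒜, hA1, hA2⟩ := zorn_subset_nonempty {ℬ : Set (Submodule F E) | IsADFamily ℬ} (by
    intro c hc hchain hne
    refine ⟨⋃₀ c, ⟨?_, ?_⟩, fun s hs => subset_sUnion_of_mem hs⟩
    · rintro X ⟨ℬ, hℬ, hX⟩
      exact (hc hℬ).1 X hX
    · rintro X ⟨ℬ, hℬ, hX⟩ Y ⟨𝒞, h𝒞, hY⟩ hXY
      rcases hchain.total hℬ h𝒞 with h | h
      · exact (hc h𝒞).2 X (h hX) Y hY hXY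
      · exact (hc hℬ).2 X hX Y (h hY) hXY) 𝒜₀ h2
  refine ⟨𝒜, h1.mono hA1, hA2.prop, fun ℬ hℬ hsub => ?_⟩
  exact hA2.eq_of_subset hℬ hsub

/-- the span of the vectors chosen so far; the list of choices is in reversed order -/
def spn (u v : ℕ → E) : List ℕ → Submodule F E
  | [] => ⊥
  | k :: σ => spn u v σ ⊔ Submodule.span F {u k + v σ.length}

lemma rank_spn (u v : ℕ → E) (σ : List ℕ) : Module.rank F (spn (F := F) u v σ) ≤ σ.length := by
  induction σ with
  | nil =>
    have h0 : Module.rank F (spn (F := F) u v []) = 0 := rank_bot F E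
    rw [h0]
    exact zero_le
  | cons k σ ih =>
    have h1 : Module.rank F (Submodule.span F {u k + v σ.length}) ≤ 1 := by
      refine (rank_span_le _).trans ?_
      simp
    calc Module.rank F (spn (F := F) u v (k :: σ))
        ≤ Module.rank F (spn (F := F) u v σ) +
          Module.rank F (Submodule.span F {u k + v σ.length}) :=
          Submodule.rank_add_le_rank_add_rank _ _
      _ ≤ σ.length + 1 := add_le_add ih h1
      _ = ((k :: σ).length : ℕ) := by simp

lemma rank_inf (A A₀ S : Submodule F E) : Module.rank F ((A ⊔ S) ⊓ A₀ : Submodule F E) ≤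
    Module.rank F (A ⊓ A₀ : Submodule F E) + Module.rank F S := by
  set V : Submodule F E := (A ⊔ S) ⊓ A₀ with hV
  let f : V →ₗ[F] (E ⧸ A) := A.mkQ.comp V.subtype
  rw [← LinearMap.rank_range_add_rank_ker f, add_comm]
  refine add_le_add ?_ ?_
  · let g : LinearMap.ker f →ₗ[F] (A ⊓ A₀ : Submodule F E) :=
      LinearMap.codRestrict _ (V.subtype.comp (LinearMap.ker f).subtype) (by
        intro x
        have h1 : A.mkQ ((x : V) : E) = 0 := x.2
        rw [Submodule.mkQ_apply, Submodule.Quotient.mk_eq_zero] at h1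
        exact ⟨h1, (x : V).2.2⟩)
    refine LinearMap.rank_le_of_injective g ?_
    intro x y hxy
    have := congrArg Subtype.val hxy
    exact Subtype.ext (Subtype.ext this)
  · have h1 : LinearMap.range f ≤ S.map A.mkQ := by
      rintro _ ⟨x, rfl⟩
      have hx : (x : E) ∈ A ⊔ S := x.2.1
      rw [Submodule.mem_sup] at hx
      obtain ⟨a, ha, s, hs, has⟩ := hx
      refine ⟨s, hs, ?_⟩
      have h2 : A.mkQ a = 0 := by simpa using ha
      simp only [f, LinearMap.comp_apply, Submodule.subtype_apply]
      rw [← has, map_add, h2, zero_add]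
    refine (Submodule.rank_mono h1).trans ?_
    exact rank_map_le _ _

/-- the bad values -/
def bad (u v : ℕ → E) (A : Submodule F E) (σ : List ℕ) : Set ℕ :=
  {k | u k + v σ.length ∈ A ⊔ spn (F := F) u v σ}

lemma bad_card {u v : ℕ → E} {A A₀ : Submodule F E} (hu : LinearIndependent F u)
    (huA : ∀ k, u k ∈ A₀) (σ : List ℕ) {d : ℕ}
    (hd : Module.rank F (A ⊓ A₀ : Submodule F E) ≤ d) (T : Finset ℕ)
    (hT : (T : Set ℕ) ⊆ bad u v A σ) : T.card ≤ d + σ.length + 1 := by
  rcases T.eq_empty_or_nonempty with rfl | ⟨k0, hk0⟩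
  · simp
  set V : Submodule F E := (A ⊔ spn (F := F) u v σ) ⊓ A₀ with hV
  set V' : Submodule F E := V ⊔ Submodule.span F {u k0} with hV'
  have hmem : ∀ k ∈ T, u k ∈ V' := by
    intro k hk
    have h1 : u k - u k0 ∈ V := by
      refine ⟨?_, A₀.sub_mem (huA _) (huA _)⟩
      have h2 : u k - u k0 = (u k + v σ.length) - (u k0 + v σ.length) := by abel
      rw [h2]
      exact Submodule.sub_mem _ (hT hk) (hT hk0)
    have h3 : u k = (u k - u k0) + u k0 := by abel
    rw [h3]
    exact Submodule.add_mem_sup h1 (Submodule.mem_span_singleton_self _)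
  have hli : LinearIndependent F (fun k : T => (⟨u k, hmem k k.2⟩ : V')) := by
    apply LinearIndependent.of_comp V'.subtype
    exact hu.comp (fun k : T => (k : ℕ)) Subtype.val_injective
  have h1 := hli.cardinal_le_rank
  have h2 : Module.rank F V' ≤ (d + σ.length + 1 : ℕ) := by
    calc Module.rank F V' ≤ Module.rank F V + Module.rank F (Submodule.span F {u k0}) :=
          Submodule.rank_add_le_rank_add_rank _ _
      _ ≤ (Module.rank F (A ⊓ A₀ : Submodule F E) + Module.rank F (spn (F := F) u v σ)) + 1 := by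
          refine add_le_add (rank_inf _ _ _) ?_
          refine (rank_span_le _).trans ?_
          simp
      _ ≤ ((d : Cardinal) + σ.length) + 1 := by
          gcongr
          exact rank_spn u v σ
      _ = (d + σ.length + 1 : ℕ) := by push_cast; rfl
  have h3 := h1.trans h2
  rw [Cardinal.mk_coe_finset] at h3
  exact_mod_cast h3

lemma bad_finite {u v : ℕ → E} {A A₀ : Submodule F E} (hu : LinearIndependent F u)
    (huA : ∀ k, u k ∈ A₀) (σ : List ℕ) {d : ℕ}
    (hd : Module.rank F (A ⊓ A₀ : Submodule F E) ≤ d) : (bad u v A σ).Finite := by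
  by_contra hinf
  obtain ⟨T, hT, hTf, hTc⟩ := Set.Infinite.exists_subset_ncard_eq hinf (d + σ.length + 2)
  have h1 := bad_card hu huA σ hd hTf.toFinset (by simpa using hT)
  rw [Set.ncard_eq_toFinset_card T hTf] at hTc
  omega

/-- the branch through a strategy -/
def br (G : List ℕ → ℕ) : ℕ → List ℕ
  | 0 => []
  | n + 1 => G (br G n) :: br G n

lemma br_length (G : List ℕ → ℕ) (n : ℕ) : (br G n).length = n := by
  induction n with
  | zero => rfl
  | succ n ih => simp [br, ih]

lemma spn_br_succ (u v : ℕ → E) (G : List ℕ → ℕ) (n : ℕ) :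
    spn (F := F) u v (br G (n + 1)) =
      spn u v (br G n) ⊔ Submodule.span F {u (G (br G n)) + v n} := by
  simp [br, spn, br_length]

lemma inf_le {u v : ℕ → E} {G : List ℕ → ℕ} {A : Submodule F E} {N : ℕ}
    (h : ∀ n ≥ N, u (G (br G n)) + v n ∉ A ⊔ spn (F := F) u v (br G n)) (n : ℕ) :
    ∀ y ∈ spn (F := F) u v (br G n), y ∈ A → y ∈ spn (F := F) u v (br G N) := by
  induction n with
  | zero =>
    intro y hy _
    simp only [br, spn, Submodule.mem_bot] at hy
    rw [hy]
    exact Submodule.zero_mem _
  | succ n ih =>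
    intro y hy hyA
    by_cases hn : N ≤ n
    · rw [spn_br_succ, Submodule.mem_sup] at hy
      obtain ⟨s, hs, t, ht, hst⟩ := hy
      rw [Submodule.mem_span_singleton] at ht
      obtain ⟨c, rfl⟩ := ht
      by_cases hc : c = 0
      · rw [hc, zero_smul, add_zero] at hst
        rw [← hst] at hyA ⊢
        exact ih s hs hyA
      · exfalso
        apply h n hn
        have h1 : u (G (br G n)) + v n = c⁻¹ • y + c⁻¹ • (-s) := by
          rw [← hst, ← smul_add, add_neg_cancel_comm, smul_smul, inv_mul_cancel₀ hc, one_smul]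
        rw [h1]
        exact Submodule.add_mem_sup (A.smul_mem _ hyA)
          (Submodule.smul_mem _ _ (Submodule.neg_mem _ hs))
    · have hmono : Monotone (fun n => spn (F := F) u v (br G n)) := by
        refine monotone_nat_of_le_succ (fun n => ?_)
        rw [spn_br_succ]
        exact le_sup_left
      exact hmono (by omega : n + 1 ≤ N) hy

theorem mad_ge {𝒜 : Set (Submodule F E)} (hinf : 𝒜.Infinite) (hmad : IsMadFamily 𝒜) :
    R592.nonM ≤ Cardinal.mk 𝒜 := by
  classical
  by_contra hlt
  rw [not_le] at hlt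
  obtain ⟨A₀, hA₀⟩ := hinf.nonempty
  obtain ⟨A₁, hA₁, hne⟩ := hinf.exists_notMem_finset {A₀}
  have hne' : A₁ ≠ A₀ := by simpa using hne
  obtain ⟨⟨hdim, had⟩, hmax⟩ := hmad
  obtain ⟨u', hu'⟩ := exists_seq (hdim A₀ hA₀)
  let u : ℕ → E := fun n => u' n
  have hu : LinearIndependent F u := hu'.map' A₀.subtype (by simp)
  have huA : ∀ k, u k ∈ A₀ := fun k => (u' k).2
  -- vectors which are independent modulo `A₀`
  have hq : ¬ FiniteDimensional F (E ⧸ A₀) := by
    intro hfin
    apply hdim A₁ hA₁
    let f : A₁ →ₗ[F] (E ⧸ A₀) := A₀.mkQ.comp A₁.subtype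
    have h1 : FiniteDimensional F (A₁ ⊓ A₀ : Submodule F E) := had A₁ hA₁ A₀ hA₀ hne'
    have h2 : Module.rank F A₁ < Cardinal.aleph0 := by
      rw [← LinearMap.rank_range_add_rank_ker f]
      refine Cardinal.add_lt_aleph0 (Module.rank_lt_aleph0 F _) ?_
      refine lt_of_le_of_lt ?_ (Module.rank_lt_aleph0 F (A₁ ⊓ A₀ : Submodule F E))
      let g : LinearMap.ker f →ₗ[F] (A₁ ⊓ A₀ : Submodule F E) :=
        LinearMap.codRestrict _ (A₁.subtype.comp (LinearMap.ker f).subtype) (by
          intro x
          have h1 : A₀.mkQ ((x : A₁) : E) = 0 := x.2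
          rw [Submodule.mkQ_apply, Submodule.Quotient.mk_eq_zero] at h1
          exact ⟨(x : A₁).2, h1⟩)
      refine LinearMap.rank_le_of_injective g ?_
      intro x y hxy
      have := congrArg Subtype.val hxy
      exact Subtype.ext (Subtype.ext this)
    exact Module.rank_lt_aleph0_iff.1 h2
  obtain ⟨v', hv'⟩ := exists_seq hq
  choose v hv using fun n => A₀.mkQ_surjective (v' n)
  -- the slaloms
  let φ : 𝒜 → List ℕ → Finset ℕ := fun A σ =>
    if h : (bad u v A.1 σ).Finite then
      (if h.toFinset.card ≤ 2 * σ.length + 1 then h.toFinset else ∅) else ∅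
  obtain ⟨G, hG⟩ := R592.slalom hlt (fun σ : List ℕ => 2 * σ.length + 1) φ (by
    intro A σ
    simp only [φ]
    split_ifs with h1 h2
    · exact h2
    · simp
    · simp)
  have hbr : Function.Injective (br G) := by
    intro n m h
    rw [← br_length G n, ← br_length G m, h]
  -- good from some point on
  have hgood : ∀ A ∈ 𝒜, A ≠ A₀ → ∃ N, ∀ n ≥ N,
      u (G (br G n)) + v n ∉ A ⊔ spn (F := F) u v (br G n) := by
    intro A hA hAne
    have h1 := hG ⟨A, hA⟩
    have h2 := hbr.tendsto_cofinite.eventually h1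
    rw [Nat.cofinite_eq_atTop, eventually_atTop] at h2
    obtain ⟨N, hN⟩ := h2
    have h3 : FiniteDimensional F (A ⊓ A₀ : Submodule F E) := had A hA A₀ hA₀ hAne
    obtain ⟨d, hd⟩ := Cardinal.lt_aleph0.1 (Module.rank_lt_aleph0 F (A ⊓ A₀ : Submodule F E))
    refine ⟨max N d, fun n hn hcon => ?_⟩
    have hfin := bad_finite (v := v) hu huA (br G n) hd.le
    have hcard := bad_card (v := v) hu huA (br G n) hd.le hfin.toFinset (by simp)
    have h4 : hfin.toFinset.card ≤ 2 * (br G n).length + 1 := by
      rw [br_length] at hcard ⊢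
      have : d ≤ n := (le_max_right _ _).trans hn
      omega
    apply hN n ((le_max_left _ _).trans hn)
    simp only [φ]
    rw [dif_pos hfin, if_pos h4, Set.Finite.mem_toFinset]
    simp only [bad, Set.mem_ofPred_eq, br_length]
    exact hcon
  let x : ℕ → E := fun n => u (G (br G n)) + v n
  have hx : ∀ n, A₀.mkQ (x n) = v' n := by
    intro n
    simp only [x, map_add, hv]
    have h1 : A₀.mkQ (u (G (br G n))) = 0 := by simpa using huA _
    rw [h1, zero_add]
  have hxli : LinearIndependent F x := by
    apply LinearIndependent.of_comp A₀.mkQ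
    have h1 : (A₀.mkQ ∘ x) = v' := funext hx
    rw [h1]
    exact hv'
  have hspn : ∀ n, (spn (F := F) u v (br G n)).map A₀.mkQ ≤
      Submodule.span F (v' '' {i | i < n}) := by
    intro n
    induction n with
    | zero => simp [br, spn]
    | succ n ih =>
      rw [spn_br_succ, Submodule.map_sup, sup_le_iff]
      constructor
      · refine ih.trans (Submodule.span_mono (image_mono ?_))
        intro i hi
        exact lt_trans hi (Nat.lt_succ_self n)
      · rw [Submodule.map_span, Submodule.span_le, image_singleton, singleton_subset_iff]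
        have h1 : A₀.mkQ (u (G (br G n)) + v n) = v' n := hx n
        rw [h1]
        exact Submodule.subset_span ⟨n, Nat.lt_succ_self n, rfl⟩
  have hgood0 : ∀ n ≥ 0, u (G (br G n)) + v n ∉ A₀ ⊔ spn (F := F) u v (br G n) := by
    intro n _ hcon
    rw [Submodule.mem_sup] at hcon
    obtain ⟨a, ha, s, hs, has⟩ := hcon
    have h1 : A₀.mkQ (x n) = A₀.mkQ s := by
      have h2 : A₀.mkQ a = 0 := by simpa using ha
      simp only [x]
      rw [← has, map_add, h2, zero_add]
    rw [hx] at h1
    have h3 : v' n ∈ Submodule.span F (v' '' {i | i < n}) := by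
      rw [h1]
      exact hspn n (Submodule.mem_map_of_mem hs)
    exact hv'.notMem_span_image (s := {i | i < n}) (x := n) (by simp) h3
  let X : Submodule F E := ⨆ n, spn (F := F) u v (br G n)
  have hmono : Monotone (fun n => spn (F := F) u v (br G n)) := by
    refine monotone_nat_of_le_succ (fun n => ?_)
    rw [spn_br_succ]
    exact le_sup_left
  have hXmem : ∀ y ∈ X, ∃ n, y ∈ spn (F := F) u v (br G n) := by
    intro y hy
    exact (Submodule.mem_iSup_of_directed _ hmono.directed_le).1 hy
  have hxX : ∀ n, x n ∈ X := by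
    intro n
    have h1 : x n ∈ spn (F := F) u v (br G (n + 1)) := by
      rw [spn_br_succ]
      exact Submodule.mem_sup_right (Submodule.mem_span_singleton_self _)
    exact (le_iSup (fun n => spn (F := F) u v (br G n)) (n + 1)) h1
  have hXinf : ¬ FiniteDimensional F X := not_finite_of_seq hxli hxX
  have hfinspn : ∀ n, FiniteDimensional F (spn (F := F) u v (br G n)) := by
    intro n
    refine Module.rank_lt_aleph0_iff.1 (lt_of_le_of_lt (rank_spn _ _ _) ?_)
    exact Cardinal.natCast_lt_aleph0
  have hXA : ∀ A ∈ 𝒜, FiniteDimensional F (X ⊓ A : Submodule F E) := by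
    intro A hA
    have hex : ∃ N, ∀ n ≥ N, u (G (br G n)) + v n ∉ A ⊔ spn (F := F) u v (br G n) := by
      by_cases hAne : A = A₀
      · rw [hAne]
        exact ⟨0, hgood0⟩
      · exact hgood A hA hAne
    obtain ⟨N, hN⟩ := hex
    have hle : (X ⊓ A : Submodule F E) ≤ spn (F := F) u v (br G N) := by
      rintro y ⟨hy1, hy2⟩
      obtain ⟨n, hn⟩ := hXmem y hy1
      exact inf_le hN n y hn hy2
    have := hfinspn N
    exact Submodule.finiteDimensional_of_le hle
  have hXnot : X ∉ 𝒜 := by
    intro hX
    have h1 := hXA X hX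
    rw [inf_idem] at h1
    exact hXinf h1
  have hbig : IsADFamily (insert X 𝒜) := by
    refine ⟨?_, ?_⟩
    · rintro Y (rfl | hY)
      · exact hXinf
      · exact hdim Y hY
    · rintro Y (rfl | hY) Z (rfl | hZ) hYZ
      · exact (hYZ rfl).elim
      · exact hXA Z hZ
      · rw [inf_comm]
        exact hXA Y hY
      · exact had Y hY Z hZ hYZ
  have := hmax _ hbig (subset_insert _ _)
  apply hXnot
  rw [this]
  exact mem_insert _ _

/-- **Main theorem.** For every field `F` and every vector space `E` over `F` of countably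
infinite dimension there is an infinite mad family of subspaces of `E`, each infinite mad family
of subspaces has at least `nonM` members, and so `nonM ≤ aVec F E`. -/
theorem result (F E : Type) [Field F] [AddCommGroup E] [Module F E]
    (hE : Module.rank F E = Cardinal.aleph0) :
    (∃ 𝒜 : Set (Submodule F E), 𝒜.Infinite ∧ IsMadFamily 𝒜) ∧
    (∀ 𝒜 : Set (Submodule F E), 𝒜.Infinite → IsMadFamily 𝒜 → nonM ≤ Cardinal.mk 𝒜) ∧
    nonM ≤ aVec F E := by
  have h1 : ∀ 𝒜 : Set (Submodule F E), 𝒜.Infinite → IsMadFamily 𝒜 →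
      nonM ≤ Cardinal.mk 𝒜 := fun 𝒜 h2 h3 => mad_ge h2 h3
  refine ⟨exists_mad hE, h1, ?_⟩
  apply le_csInf
  · obtain ⟨𝒜, h2, h3⟩ := exists_mad hE
    exact ⟨_, 𝒜, h2, h3, rfl⟩
  · rintro _ ⟨𝒜, h2, h3, rfl⟩
    exact h1 𝒜 h2 h3

end Pool.Agent.Results.MP_43e680_lc.NonMLeAVec
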